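import Pool.Agent.Helper63.XR.StB

/-!
# Project XR (MP_c973ff_an), module CMP: compression to the support
-/

set_option autoImplicit false

namespace Pool.Agent.Helper42.XR

open Pool.Agent.Helper63.XR

section aux

variable {I J : Type} [Fintype I] [DecidableEq I] [Fintype J] [DecidableEq J] {ι : I → J}

private theorem sub_mul_left (hι : Function.Injective ι) (A B : Matrix J J ℂ)
    (h : ∀ i k, k ∉ Set.range ι → A i k = 0) :
    (A * B).submatrix ι ι = A.submatrix ι ι * B.submatrix ι ι := by
  ext i j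
  rw [Matrix.submatrix_apply, Matrix.mul_apply, Matrix.mul_apply]
  symm
  refine Fintype.sum_of_injective ι hι _ _ ?_ (fun k => rfl)
  intro k hk
  rw [h _ k hk, zero_mul]

private theorem sub_mul_right (hι : Function.Injective ι) (A B : Matrix J J ℂ)
    (h : ∀ k j, k ∉ Set.range ι → B k j = 0) :
    (A * B).submatrix ι ι = A.submatrix ι ι * B.submatrix ι ι := by
  ext i j
  rw [Matrix.submatrix_apply, Matrix.mul_apply, Matrix.mul_apply]
  symm
  refine Fintype.sum_of_injective ι hι _ _ ?_ (fun k => rfl)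
  intro k hk
  rw [h k _ hk, mul_zero]

private theorem col_sub (hι : Function.Injective ι) (Y : Matrix J J ℂ) (K : ℝ) (h : ColLe Y K) :
    ColLe (Y.submatrix ι ι) K := by
  intro j
  refine le_trans ?_ (h (ι j))
  have h1 : ∑ i, ‖Y.submatrix ι ι i j‖ = ∑ i ∈ Finset.univ.image ι, ‖Y i (ι j)‖ := by
    rw [Finset.sum_image (fun a _ b _ hab => hι hab)]
    rfl
  rw [h1]
  exact Finset.sum_le_sum_of_subset_of_nonneg (Finset.subset_univ _) fun _ _ _ => norm_nonneg _

end aux

theorem hCMP : StCmp := by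
  intro I J _ _ _ _ ι X Y Z K hι hX hY hZ hid hex
  refine ⟨Y.submatrix ι ι, Z.submatrix ι ι, col_sub hι Y K hY, col_sub hι Z K hZ, ?_, ?_⟩
  · have h1 : (X * Y).submatrix ι ι = X.submatrix ι ι * Y.submatrix ι ι :=
      sub_mul_left hι X Y fun i k hk => hX i k (Or.inr hk)
    have h2 : ((X * Y) * (X * Y)).submatrix ι ι =
        (X * Y).submatrix ι ι * (X * Y).submatrix ι ι := by
      refine sub_mul_right hι _ _ fun k j hk => ?_
      rw [Matrix.mul_apply]
      exact Finset.sum_eq_zero fun l _ => by rw [hX k l (Or.inl hk), zero_mul]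
    rw [← h1, ← h2, hid]
  · have h1 : (X * Y).submatrix ι ι = X.submatrix ι ι * Y.submatrix ι ι :=
      sub_mul_left hι X Y fun i k hk => hX i k (Or.inr hk)
    have h2 : (X * Z).submatrix ι ι = X.submatrix ι ι * Z.submatrix ι ι :=
      sub_mul_left hι X Z fun i k hk => hX i k (Or.inr hk)
    have h3 : (1 - X * Y).submatrix ι ι = 1 - X.submatrix ι ι * Y.submatrix ι ι := by
      rw [Matrix.submatrix_sub, ← h1, Pi.sub_apply, Pi.sub_apply, Matrix.submatrix_one ι hι]
    have h4 : ((1 - X) * Z).submatrix ι ι = (1 - X.submatrix ι ι) * Z.submatrix ι ι := by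
      rw [sub_mul, one_mul, sub_mul, one_mul, ← h2, Matrix.submatrix_sub]
      rfl
    rw [← h3, ← h4, hex]

end Pool.Agent.Helper42.XR
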